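import Pool.Agent.TH999.CNM.Unif

/-! # Even congruent numbers in short intervals and in residue classes to large moduli

Let `2/3 < θ ≤ 17/24`. For all large `X`, every modulus `M ≤ X ^ ((θ - 2/3)/14)` and every residue
class modulo `M` that contains an even squarefree number, the interval `[X, X + X ^ θ]` contains at
least `X ^ (1/12)` even squarefree congruent numbers of the class.

Proof: for a square `Q = m ^ 2` the number `n = b (x ^ 2 - Q b) (x ^ 2 + Q b)` is congruent, and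
`n ≡ b` modulo `Q` if `x ≡ 1` modulo `Q`; so every class is reached. For `x` the first admissible
integer with `2 x ^ 6 / (3 √3 Q) > X` and `b` near the critical point `x ^ 2 / (√3 Q)` consecutive
values differ by about `X ^ (7/12)`, and squares of large primes are sieved out of a window of
`X ^ (1/12 + ε)` consecutive `b` by second differences, as in the case of the modulus `8` by
helper827 (`Pool/Agent/TH827/CN`). -/

set_option autoImplicit false

namespace Pool.Agent.Results.MP_f126a2_nt.EvenResidueClasses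

/-- `n` is the area of a right triangle with rational sides -/
def IsCongruent (n : ℕ) : Prop :=
  ∃ a b c : ℚ, 0 < a ∧ 0 < b ∧ 0 < c ∧ a ^ 2 + b ^ 2 = c ^ 2 ∧ (n : ℚ) = a * b / 2

/-- Let `2/3 < θ ≤ 17/24`. There is `X₀` such that for all real `X ≥ X₀`, all moduli
`1 ≤ M ≤ X ^ ((θ - 2/3)/14)` and all `a` whose residue class modulo `M` contains an even squarefree
number, at least `X ^ (1/12)` integers `n` in `[X, X + X ^ θ]` are even squarefree congruent numbers
with `n ≡ a` modulo `M`. -/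
theorem result (θ : ℝ) (hθ : 2 / 3 < θ) (hθ1 : θ ≤ 17 / 24) :
    ∃ X₀ : ℝ, ∀ X : ℝ, X₀ ≤ X → ∀ M : ℕ, 0 < M → (M : ℝ) ≤ X ^ ((θ - 2 / 3) / 14) →
      ∀ a : ℕ, (∃ k : ℕ, Squarefree k ∧ Even k ∧ k ≡ a [MOD M]) →
        X ^ (1 / 12 : ℝ) ≤ ({n : ℕ | X ≤ n ∧ (n : ℝ) ≤ X + X ^ θ ∧ Squarefree n ∧ Even n ∧
          n ≡ a [MOD M] ∧ IsCongruent n}.ncard : ℝ) := by
  obtain ⟨X₀, h⟩ := Pool.Agent.TH999.CNM.main_unif θ hθ hθ1
  refine ⟨X₀, ?_⟩
  intro X hX M hM0 hMX a ⟨k, hk, hke, hka⟩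
  refine (h X hX M hM0 hMX k hk).trans ?_
  have hfin : {n : ℕ | X ≤ n ∧ (n : ℝ) ≤ X + X ^ θ ∧ Squarefree n ∧ Even n ∧
      n ≡ a [MOD M] ∧ IsCongruent n}.Finite := by
    apply (Set.finite_Iic ⌊X + X ^ θ⌋₊).subset
    intro n hn
    exact Nat.le_floor hn.2.1
  have hsub : Pool.Agent.TH999.CNM.CSet' (8 * M) k X (X ^ θ) ⊆
      {n : ℕ | X ≤ n ∧ (n : ℝ) ≤ X + X ^ θ ∧ Squarefree n ∧ Even n ∧
        n ≡ a [MOD M] ∧ IsCongruent n} := by
    intro n hn
    obtain ⟨h1, h2, h3, h4, h5⟩ := hn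
    refine ⟨h1, h2, h3, ?_, (h4.of_dvd (Dvd.intro_left 8 rfl)).trans hka, h5⟩
    have h6 : n ≡ k [MOD 2] := h4.of_dvd ⟨4 * M, by ring⟩
    rw [Nat.even_iff] at hke ⊢
    have h7 : n % 2 = k % 2 := h6
    omega
  exact_mod_cast Set.ncard_le_ncard hsub hfin

end Pool.Agent.Results.MP_f126a2_nt.EvenResidueClasses
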